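import Pool.Agent.H491R4.AF3

/-! # Koblitz counts for almost all curves `y² = x³ + a x + n` with coefficients in automatic sets

The coefficients run through an arbitrary automatic set `S` (the set of the integers whose digits in a base `b` are accepted
by a finite automaton) of more than polylogarithmic size; such sets may have as few as `N ^ c` elements below `N`, with
arbitrarily small `c > 0`.

Definitions used: in `Pool.Agent.H491R4.AF` (file `Pool/Agent/H491R4/AF2.lean`): `acc b M N E`: the number of the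
integers `v < N` accepted by the automaton `M` (reading the digits of `v` in base `b`, the least significant digit first)
with the property `E`; `AlmostS b M N κ c τ P`: the proportion of the `v < N` accepted by `M` for which `c + κ v` does not
have the property `P` is at most `τ`; in `Pool.Agent.W263.BSD` (file `Pool/Agent/W263/BSD/Defs.lean`):
`pointCount a n p` is the number of the solutions of `y² = x³ + a x + n` modulo `p`, `GoodPrime a n p`: `p` is a prime which
does not divide `2 (4 a³ + 27 n²)`. -/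

set_option autoImplicit false

namespace Pool.Agent.Results.MP_b89fd0_nt.AutomaticFamilies

open Finset Filter Pool.Agent.R459.Eq Pool.Agent.H491R4.AF
open Pool.Agent.W263.BSD (GoodPrime pointCount)

/-- `p` is a prime of good reduction of `y² = x³ + a x + n`, and `#E(F_p) / t` is a prime. -/
def PrimeOrder (t p : ℕ) (a n : ℤ) : Prop := GoodPrime a n p ∧ ∃ q : ℕ, q.Prime ∧ pointCount a n p + 1 = t * q

open Classical in
/-- The number `π_{E, t}(x)` of the primes `p ≤ x` of good reduction of `E : y² = x³ + a x + n` for which `#E(F_p) / t` is a prime. -/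
noncomputable def koblitz (a n : ℤ) (t x : ℕ) : ℕ := ((range (x + 1)).filter (fun p => PrimeOrder t p a n)).card

open Classical in
/-- The sum over the primes `p ≤ x` of the proportion of the residues `ν` modulo `p` for which `p` is a prime of good reduction
of `y² = x³ + a x + ν` with `#E(F_p) / t` a prime. -/
noncomputable def model (a : ℤ) (t x : ℕ) : ℝ :=
  ∑ p ∈ (range (x + 1)).filter Nat.Prime, (((range p).filter (fun ν : ℕ => PrimeOrder t p a ν)).card : ℝ) / p

open Classical in
/-- The sum over the primes `p ≤ x` of the proportion of the pairs `(α, ν)` of residues modulo `p` for which `p` is a prime of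
good reduction of `y² = x³ + α x + ν` with `#E(F_p) / t` a prime. -/
noncomputable def modelPairs (t x : ℕ) : ℝ :=
  ∑ p ∈ (range (x + 1)).filter Nat.Prime,
    (((range p ×ˢ range p).filter (fun z : ℕ × ℕ => PrimeOrder t p z.1 z.2)).card : ℝ) / (p : ℝ) ^ 2

lemma pri_eq (x : ℕ) [DecidablePred Nat.Prime] : (range (x + 1)).filter Nat.Prime = pri x := by
  unfold pri
  congr!

lemma koblitz_eq (a n : ℤ) (t x : ℕ) : koblitz a n t x = cntR (PrimeOrder t) a n x := by
  classical
  unfold koblitz cntR
  congr 1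
  ext p
  simp only [mem_filter, mem_range, mem_pri]
  constructor
  · rintro ⟨h1, h2⟩
    exact ⟨⟨by omega, h2.1.1⟩, h2⟩
  · rintro ⟨h1, h2⟩
    exact ⟨by omega, h2⟩

lemma model_eq (a : ℤ) (t x : ℕ) : model a t x = ∑ p ∈ pri x, Pool.Agent.R459.Eq.dens (PrimeOrder t) a p := by
  classical
  unfold model Pool.Agent.R459.Eq.dens
  rw [pri_eq]

lemma modelPairs_eq (t x : ℕ) : modelPairs t x = ∑ p ∈ pri x, dens2 (PrimeOrder t) p := by
  classical
  unfold modelPairs dens2
  rw [pri_eq]

lemma order_per (t p : ℕ) (hp : p.Prime) (a a' n n' : ℤ) (h : (p : ℤ) ∣ a - a') (h' : (p : ℤ) ∣ n - n') :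
    PrimeOrder t p a n ↔ PrimeOrder t p a' n' := by
  have e1 : ((a : ℤ) : ZMod p) = ((a' : ℤ) : ZMod p) := by
    rw [← sub_eq_zero, ← Int.cast_sub, ZMod.intCast_zmod_eq_zero_iff_dvd]
    exact h
  have e2 : ((n : ℤ) : ZMod p) = ((n' : ℤ) : ZMod p) := by
    rw [← sub_eq_zero, ← Int.cast_sub, ZMod.intCast_zmod_eq_zero_iff_dvd]
    exact h'
  have h1 : GoodPrime a n p ↔ GoodPrime a' n' p := by
    unfold GoodPrime
    rw [← ZMod.intCast_zmod_eq_zero_iff_dvd, ← ZMod.intCast_zmod_eq_zero_iff_dvd]
    push_cast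
    rw [e1, e2]
  have h2 : pointCount a n p = pointCount a' n' p := by
    unfold pointCount
    rw [e1, e2]
  unfold PrimeOrder
  rw [h1, h2]

lemma order_few (p : ℕ) (hp : p.Prime) (a n : ℤ) (Q : Finset ℕ) (hQ : ∀ j ∈ Q, PrimeOrder j p a n) : Q.card ≤ Nat.log 2 p + 3 := by
  rcases Q.eq_empty_or_nonempty with h | ⟨j₀, hj₀⟩
  · rw [h, card_empty]
    omega
  have hgood := (hQ j₀ hj₀).1
  obtain ⟨m, hm⟩ : ∃ m, m = pointCount a n p + 1 := ⟨_, rfl⟩
  have hm4 : m ≤ 4 * p := by
    haveI : Fact p.Prime := ⟨hp⟩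
    have hp2 : p ≠ 2 := by
      intro h2
      apply hgood.2
      rw [h2]
      exact Dvd.intro _ rfl
    have h1 := Pool.Agent.R459.Bsd.pc_eq hp2 a n
    have h2 := Pool.Agent.R459.Bsd.tr_abs hp2 (a : ZMod p) (n : ZMod p)
    rw [← h1] at h2
    rw [abs_le] at h2
    have hp1 : (1 : ℝ) ≤ p := by exact_mod_cast hp.one_le
    have h3 : √(p : ℝ) ≤ p := by
      rw [Real.sqrt_le_left (by linarith)]
      nlinarith
    have h4 : (m : ℝ) ≤ 4 * p := by
      rw [hm]
      push_cast
      linarith [h2.1]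
    exact_mod_cast h4
  have hm1 : m ≠ 0 := by omega
  have h1 : Q.card ≤ m.primeFactors.card := by
    apply card_le_card_of_injOn (fun j => m / j)
    · intro j hj
      obtain ⟨q, hq, hjq⟩ := (hQ j (mem_coe.1 hj)).2
      rw [← hm] at hjq
      have hj0 : 0 < j := Nat.pos_of_ne_zero (by rintro rfl; omega)
      have e : m / j = q := by rw [hjq]; exact Nat.mul_div_cancel_left q hj0
      simp only [mem_coe, Nat.mem_primeFactors, ne_eq]
      rw [e]
      exact ⟨hq, ⟨j, by rw [hjq]; ring⟩, hm1⟩
    · intro j hj j' hj' h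
      obtain ⟨q, hq, hjq⟩ := (hQ j (mem_coe.1 hj)).2
      obtain ⟨q', hq', hjq'⟩ := (hQ j' (mem_coe.1 hj')).2
      rw [← hm] at hjq hjq'
      have hj0 : 0 < j := Nat.pos_of_ne_zero (by rintro rfl; omega)
      have hj0' : 0 < j' := Nat.pos_of_ne_zero (by rintro rfl; omega)
      have e : m / j = q := by rw [hjq]; exact Nat.mul_div_cancel_left q hj0
      have e' : m / j' = q' := by rw [hjq']; exact Nat.mul_div_cancel_left q' hj0'
      simp only at h
      rw [e, e'] at h
      rw [h] at hjq
      rw [hjq] at hjq'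
      exact Nat.eq_of_mul_eq_mul_right hq'.pos hjq'
  have h2 : 2 ^ m.primeFactors.card ≤ m := by
    calc 2 ^ m.primeFactors.card ≤ ∏ q ∈ m.primeFactors, q :=
          Finset.pow_card_le_prod _ _ _ fun q hq => (Nat.prime_of_mem_primeFactors hq).two_le
      _ ≤ m := Nat.le_of_dvd (by omega) (Nat.prod_primeFactors_dvd m)
  have h3 : m.primeFactors.card ≤ Nat.log 2 m := Nat.le_log_of_pow_le (by norm_num) h2
  have h4 : Nat.log 2 m ≤ Nat.log 2 p + 2 := by
    calc Nat.log 2 m ≤ Nat.log 2 (p * 2 * 2) := Nat.log_mono_right (by omega)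
      _ = Nat.log 2 p + 2 := by
        rw [Nat.log_mul_base (by norm_num) (by have := hp.pos; omega), Nat.log_mul_base (by norm_num) hp.ne_zero]
  omega

/-- **Koblitz counts for almost all curves with coefficients in automatic sets.** Let `S` be the set of the integers
`v ≥ 0` whose digits in base `b ≥ 2` are accepted by a finite automaton `M`, and suppose that `S` has more than
polylogarithmic size: for every `k` there are infinitely many `N` such that more than `(log N) ^ k` elements of `S` are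
smaller than `N`. Let `0 < δ ≤ 1 / 2`. There are `W` and `e` such that for `κ ≠ 0` and all sufficiently large `X` the following holds
for all `N` and all `c`.

(1) For EVERY integer `a`, almost all the `n = c + κ v` with `v ∈ S`, `v < N`, up to a proportion of at most
`2 (log N) ^ e X ^ (- δ / 2)`, have for ALL `x ≥ X` with `x ^ W ≤ N` and ALL `t ≤ x`: the number of the primes `p ≤ x` of good
reduction of `E : y² = x³ + a x + n` with `#E(F_p) / t` prime differs from the sum over `p ≤ x` of the proportion of the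
residues `ν` modulo `p` such that `y² = x³ + a x + ν` has this property by at most `x ^ (1 / 2 + δ)`.

(2) Almost all the `a = c + κ v` with `v ∈ S`, `v < N`, up to a proportion of at most `2 (log N) ^ e X ^ (- δ / 2)`, have for ALL
`x ≥ X` with `x ^ W ≤ N` and ALL `t ≤ x`: the sum of these proportions differs from the sum over `p ≤ x` of the proportion of
the PAIRS of coefficients modulo `p` which have this property by at most `x ^ (1 / 2 + δ)`. -/
theorem result {σ : Type} [Fintype σ] (b : ℕ) (hb : 2 ≤ b) (M : DFA ℕ σ)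
    (hS : ∀ k : ℕ, ∃ᶠ N : ℕ in atTop, Real.log N ^ k < (acc b M N (fun _ => True) : ℝ))
    (δ : ℝ) (hδ : 0 < δ) (hδ1 : δ ≤ 1 / 2) : ∃ W e : ℕ, 1 ≤ W ∧
    ∀ κ : ℤ, κ ≠ 0 → ∃ X₀ : ℕ, ∀ X : ℕ, X₀ ≤ X → ∀ N : ℕ, ∀ c : ℤ,
    (∀ a : ℤ, AlmostS b M N κ c (2 * Real.log N ^ e * (X : ℝ) ^ (-(δ / 2))) (fun n => ∀ x : ℕ, X ≤ x → x ^ W ≤ N →
      ∀ t : ℕ, t ≤ x → |(koblitz a n t x : ℝ) - model a t x| ≤ (x : ℝ) ^ (1 / 2 + δ))) ∧
    AlmostS b M N κ c (2 * Real.log N ^ e * (X : ℝ) ^ (-(δ / 2))) (fun a => ∀ x : ℕ, X ≤ x → x ^ W ≤ N →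
      ∀ t : ℕ, t ≤ x → |model a t x - modelPairs t x| ≤ (x : ℝ) ^ (1 / 2 + δ)) := by
  obtain ⟨W, e, hW, H⟩ := two_count_aut b hb M hS δ hδ hδ1
  refine ⟨W, e, hW, fun κ hκ => ?_⟩
  obtain ⟨X₀, J⟩ := H κ hκ
  refine ⟨X₀, fun X hX N c => ?_⟩
  obtain ⟨h1, h2⟩ := J X hX N c PrimeOrder order_per order_few
  have h8 : 2 * Real.log N ^ e * (X : ℝ) ^ (-(δ / 2)) = Real.log N ^ e * (2 * (X : ℝ) ^ (-(δ / 2))) := by ring
  rw [h8]
  constructor
  · intro a
    refine AlmostS.mono (h1 a) ?_
    intro n hn x hXx hxW t ht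
    rw [koblitz_eq, model_eq]
    exact (hn x hXx hxW).1 t ht
  · refine AlmostS.mono h2 ?_
    intro a hn x hXx hxW t ht
    rw [model_eq, modelPairs_eq]
    exact (hn x hXx hxW).1 t ht

end Pool.Agent.Results.MP_b89fd0_nt.AutomaticFamilies
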