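import Pool.Agent.TH894.NE4

/-!
# The numbers of Koblitz for almost all elliptic curves whose two coefficients arise from arbitrary integers by changing
a few digits: all `t`, all residue classes and all intervals at once, with the square root of the main term as error

Nothing is used besides Mathlib in the statement.
-/

set_option autoImplicit false

namespace Pool.Agent.Results.MP_b89fd0_nt.FewDigitCurves

open Finset

/-- The number of the points over `F_p` (together with the point at infinity) of `Y ^ 2 = X ^ 3 + m 0 X + m 1`. -/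
def points (p : ℕ) (m : Fin 2 → ℕ) : ℕ :=
  ((range p ×ˢ range p).filter (fun xy => xy.2 ^ 2 % p = (xy.1 ^ 3 + m 0 * xy.1 + m 1) % p)).card + 1

/-- The curve `Y ^ 2 = X ^ 3 + m 0 X + m 1` remains smooth modulo `p` and the number of its points over `F_p`, divided by `t`,
is a prime number. -/
def IsKoblitz (t p : ℕ) (m : Fin 2 → ℕ) : Prop :=
  ¬ p ∣ 2 * (4 * m 0 ^ 3 + 27 * m 1 ^ 2) ∧ t ∣ points p m ∧ (points p m / t).Prime

/-- The primes `p` with `z < p ≤ x` in the residue class of `a` modulo `q`. -/
def primes (z x q a : ℕ) : Finset ℕ := (Ioc z x).filter (fun p => p.Prime ∧ p % q = a)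

open Classical in
/-- The number of the primes `z < p ≤ x`, `p ≡ a mod q`, of good reduction of the curve (model) with the coefficients `m`
for which the number of the points over `F_p`, divided by `t`, is a prime number. -/
noncomputable def koblitz (m : Fin 2 → ℕ) (t z x q a : ℕ) : ℕ :=
  ((primes z x q a).filter (fun p => IsKoblitz t p m)).card

open Classical in
/-- The sum over the primes `z < p ≤ x`, `p ≡ a mod q`, of the proportion of the smooth curves modulo `p` whose number of points,
divided by `t`, is a prime number, among all pairs of coefficients modulo `p`. -/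
noncomputable def expected (t z x q a : ℕ) : ℝ :=
  ∑ p ∈ primes z x q a, (((Fintype.piFinset (fun _ : Fin 2 => range p)).filter (fun n => IsKoblitz t p n)).card : ℝ) / (p : ℝ) ^ 2

/-- For all `t`, all intervals `(z, x]` and all residue classes the number of the primes in question differs from the
expected number `V` by at most `(max 1 V) ^ (1 / 2) x ^ δ`. -/
noncomputable def Good (δ : ℝ) (x : ℕ) (m : Fin 2 → ℕ) : Prop :=
  ∀ t z q a : ℕ, |(koblitz m t z x q a : ℝ) - expected t z x q a| ≤ Real.sqrt (max 1 (expected t z x q a)) * (x : ℝ) ^ δ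

/-- The digit number `i` (counted from the right, beginning with `0`) of `n` in base `b`. -/
def digit (b i n : ℕ) : ℕ := n / b ^ i % b

/-- The number which arises from the number `N` with at most `K` digits in base `b`, if for every `i ∈ S`
the digit number `i` is replaced by `f i`. -/
def change (b K N : ℕ) (f : ℕ → ℕ) (S : Finset ℕ) : ℕ :=
  ∑ i ∈ range K, (if i ∈ S then f i else digit b i N) * b ^ i

open Classical in
/-- The number of the choices of `r l` of `K l` positions for `l = 0, 1` for which the pair of the numbers obtained by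
changing the digits of `N 0`, `N 1` at the chosen positions (according to `f 0`, `f 1`) does not have the property `E`. -/
noncomputable def exceptions (b : ℕ) (K r N : Fin 2 → ℕ) (f : Fin 2 → ℕ → ℕ) (E : (Fin 2 → ℕ) → Prop) : ℕ :=
  ((Fintype.piFinset (fun l => powersetCard (r l) (range (K l)))).filter
    (fun S => ¬ E (fun l => change b (K l) (N l) (f l) (S l)))).card

lemma points_mod (p : ℕ) (m : Fin 2 → ℕ) : points p (fun i => m i % p) = points p m := by
  unfold points
  congr 2
  apply filter_congr
  intro xy _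
  have h : xy.1 ^ 3 + m 0 % p * xy.1 + m 1 % p ≡ xy.1 ^ 3 + m 0 * xy.1 + m 1 [MOD p] :=
    (((Nat.mod_modEq (m 0) p).mul_right xy.1).add_left (xy.1 ^ 3)).add (Nat.mod_modEq (m 1) p)
  rw [h]

lemma isKoblitz_mod (t p : ℕ) (m : Fin 2 → ℕ) : IsKoblitz t p m ↔ IsKoblitz t p (fun i => m i % p) := by
  unfold IsKoblitz
  rw [points_mod]
  have h : 2 * (4 * (m 0 % p) ^ 3 + 27 * (m 1 % p) ^ 2) ≡ 2 * (4 * m 0 ^ 3 + 27 * m 1 ^ 2) [MOD p] :=
    ((((Nat.mod_modEq (m 0) p).pow 3).mul_left 4).add (((Nat.mod_modEq (m 1) p).pow 2).mul_left 27)).mul_left 2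
  rw [h.dvd_iff dvd_rfl]

lemma points_le (p : ℕ) (m : Fin 2 → ℕ) : points p m ≤ p * p + 1 := by
  unfold points
  refine Nat.succ_le_succ ((card_filter_le _ _).trans ?_)
  rw [card_product, card_range]

lemma not_isKoblitz {t p : ℕ} {m : Fin 2 → ℕ} (h : p * p + 1 < t) : ¬ IsKoblitz t p m := by
  rintro ⟨_, h2, h3⟩
  have h4 := Nat.le_of_dvd (by unfold points; omega) h2
  have := points_le p m
  omega

/-- Trivial cases: at most one prime. -/
lemma good_of_card (δ : ℝ) (hδ : 0 < δ) (x : ℕ) (hx : 1 ≤ x) (m : Fin 2 → ℕ) (t z q a : ℕ)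
    (h : (primes z x q a).card ≤ 1) :
    |(koblitz m t z x q a : ℝ) - expected t z x q a| ≤ Real.sqrt (max 1 (expected t z x q a)) * (x : ℝ) ^ δ := by
  classical
  have hx1 : (1 : ℝ) ≤ x := by exact_mod_cast hx
  have h1 : (koblitz m t z x q a : ℝ) ≤ 1 := by
    have : koblitz m t z x q a ≤ 1 := (card_filter_le _ _).trans h
    exact_mod_cast this
  have h0 : (0 : ℝ) ≤ koblitz m t z x q a := Nat.cast_nonneg _
  have h2 : 0 ≤ expected t z x q a := sum_nonneg fun p _ => by positivity
  have h3 : expected t z x q a ≤ 1 := by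
    unfold expected
    calc _ ≤ ∑ p ∈ primes z x q a, (1 : ℝ) := by
          apply sum_le_sum
          intro p hp
          have := Pool.Agent.TH894.NE.Pr_le_one 2 p (fun n => IsKoblitz t p n)
          unfold Pool.Agent.TH894.NE.Pr Pool.Agent.TH894.NE.box at this
          convert this
      _ = ((primes z x q a).card : ℝ) := by simp
      _ ≤ 1 := by exact_mod_cast h
  have h4 : 1 ≤ Real.sqrt (max 1 (expected t z x q a)) * (x : ℝ) ^ δ := by
    have h5 : 1 ≤ Real.sqrt (max 1 (expected t z x q a)) := by
      rw [Real.one_le_sqrt]; exact le_max_left _ _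
    have h6 : (1 : ℝ) ≤ (x : ℝ) ^ δ := Real.one_le_rpow hx1 hδ.le
    nlinarith
  refine le_trans ?_ h4
  rw [abs_le]
  constructor <;> linarith

/-- Let a base `b ≥ 2`, `δ > 0` and an integer `A ≥ 0` be given. There are `c > 0` and `y₀` such that for all integers
`r 0`, `r 1`, `K 0`, `K 1`, `y` with `2 r l ≤ K l` and `y ≥ y₀` the following holds.

Let `0 ≤ N l < b ^ K l` be arbitrary integers and prescribe for every position `j` a digit `f l j` different from the digit of
`N l` in base `b` (`l = 0, 1`). If one chooses `r l` of the `K l` positions and replaces the digits of `N l` at these positions, then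
for all but at most a proportion `1 / y ^ A` of the choices the elliptic curve `Y ^ 2 = X ^ 3 + m 0 X + m 1` with the numbers
`m 0`, `m 1` obtained has the following property: for all integers `x` with `y ≤ x ≤ exp (c r l)` (`l = 0, 1`), all `t`,
all `z` and all `q`, `a` the number of the primes `z < p ≤ x`, `p ≡ a mod q`, for which the number of points modulo `p`
is `t` times a prime number differs from its expected value `V` (the sum over the primes `z < p ≤ x`, `p ≡ a mod q`,
of the proportion of the pairs of coefficients modulo `p` with this property) by at most `(max 1 V) ^ (1 / 2) x ^ δ`. -/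
theorem result (b : ℕ) (hb : 2 ≤ b) (δ : ℝ) (hδ : 0 < δ) (A : ℕ) : ∃ c : ℝ, 0 < c ∧ ∃ y₀ : ℕ,
    ∀ (K r : Fin 2 → ℕ) (y : ℕ), (∀ l, 2 * r l ≤ K l) → y₀ ≤ y →
    ∀ N : Fin 2 → ℕ, (∀ l, N l < b ^ K l) → ∀ f : Fin 2 → ℕ → ℕ, (∀ l j, f l j < b ∧ f l j ≠ digit b j (N l)) →
      (exceptions b K r N f (fun m => ∀ x : ℕ, y ≤ x → (∀ l, (x : ℝ) ≤ Real.exp (c * r l)) → Good δ x m) : ℝ) ≤
        1 / (y : ℝ) ^ A * ∏ l, ((K l).choose (r l) : ℝ) := by
  classical
  obtain ⟨c, hc, x₀, h⟩ := Pool.Agent.TH894.NE.law2 b 2 hb (by norm_num) δ A 8 hδ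
  refine ⟨c, hc, x₀ + 3, fun K r y hrK hy N hN f hf => ?_⟩
  have hy0 : (0 : ℝ) < y := by exact_mod_cast (by omega : 0 < y)
  have h1 : 1 / (y : ℝ) ^ A = (y : ℝ) ^ (-(A : ℝ)) := by
    rw [Real.rpow_neg hy0.le, Real.rpow_natCast, one_div]
  rw [h1]
  unfold exceptions
  refine h r K y hrK (by omega) N hN f hf (ℕ × ℕ × ℕ × ℕ)
    (fun x => if x < 2 then ∅ else range (x ^ 2 + 2) ×ˢ (range x ×ˢ (range (x + 1) ×ˢ range (x + 1)))) ?_ ℕ
    (fun x l => primes l.2.1 x l.2.2.1 l.2.2.2) (fun _ p => p) ?_ ?_ (fun l p m => IsKoblitz l.1 p m) ?_ _ (filter_subset _ _) ?_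
  · intro x _
    show (((if x < 2 then ∅ else range (x ^ 2 + 2) ×ˢ (range x ×ˢ (range (x + 1) ×ˢ range (x + 1))) :
      Finset (ℕ × ℕ × ℕ × ℕ)).card : ℕ) : ℝ) ≤ _
    split_ifs with hx
    · rw [card_empty, Nat.cast_zero]
      positivity
    · push Not at hx
      rw [card_product, card_product, card_product, card_range, card_range, card_range,
        show (8 : ℝ) = ((8 : ℕ) : ℝ) by norm_num, Real.rpow_natCast]
      have e1 : x ^ 2 + 2 ≤ x ^ 3 := by nlinarith [Nat.pow_le_pow_left hx 2]
      have e2 : x + 1 ≤ x ^ 2 := by nlinarith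
      have e3 : (x ^ 2 + 2) * (x * ((x + 1) * (x + 1))) ≤ x ^ 8 := by
        calc (x ^ 2 + 2) * (x * ((x + 1) * (x + 1))) ≤ x ^ 3 * (x * (x ^ 2 * x ^ 2)) := by gcongr
          _ = x ^ 8 := by ring
      exact_mod_cast e3
  · intro x l _ p hp
    unfold primes at hp
    rw [mem_filter, mem_Ioc] at hp
    exact ⟨hp.2.1.one_lt.le, by omega⟩
  · intro x l _ p hp p' hp' hne
    unfold primes at hp hp'
    rw [mem_filter] at hp hp'
    exact (Nat.coprime_primes hp.2.1 hp'.2.1).2 hne
  · intro x t _ p _ m
    exact isKoblitz_mod t.1 p m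
  · intro S hS
    rw [mem_filter] at hS
    obtain ⟨_, hS2⟩ := hS
    unfold Good at hS2
    push Not at hS2
    obtain ⟨x, hyx, hxr, t, z, q, a, hlt⟩ := hS2
    have hx0 : (0 : ℝ) < x := by exact_mod_cast (by omega : 0 < x)
    obtain ⟨m, hm⟩ : ∃ m : Fin 2 → ℕ, m = fun l => change b (K l) (N l) (f l) (S l) := ⟨_, rfl⟩
    have hcount : (koblitz m t z x q a : ℝ) = (((primes z x q a).filter (fun p => IsKoblitz t p m)).card : ℝ) := rfl
    have hexp : expected t z x q a = ∑ p ∈ primes z x q a, Pool.Agent.TH894.NE.Pr 2 p (fun n => IsKoblitz t p n) := by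
      unfold expected Pool.Agent.TH894.NE.Pr Pool.Agent.TH894.NE.box
      rfl
    rw [← hm] at hlt
    -- the parameters are bounded
    have hcard : ¬ (primes z x q a).card ≤ 1 := fun hcd =>
      absurd hlt (not_lt.2 (good_of_card δ hδ x (by omega) m t z q a hcd))
    have hz : z < x := by
      by_contra hcon
      apply hcard
      unfold primes
      rw [Ioc_eq_empty (by omega), filter_empty, card_empty]
      omega
    have hq : q < x + 1 := by
      by_contra hcon
      apply hcard
      rw [card_le_one]
      intro p hp p' hp'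
      unfold primes at hp hp'
      rw [mem_filter, mem_Ioc] at hp hp'
      have h3 := hp.2.2
      have h4 := hp'.2.2
      rw [Nat.mod_eq_of_lt (by omega)] at h3 h4
      omega
    have ha : a < x + 1 := by
      by_contra hcon
      apply hcard
      rw [card_le_one]
      intro p hp p' hp'
      unfold primes at hp hp'
      rw [mem_filter, mem_Ioc] at hp hp'
      have h3 := hp.2.2
      have h4 := Nat.mod_le p q
      omega
    have ht : t < x ^ 2 + 2 := by
      by_contra hcon
      have hno : ∀ p ∈ primes z x q a, ∀ n, ¬ IsKoblitz t p n := by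
        intro p hp n
        unfold primes at hp
        rw [mem_filter, mem_Ioc] at hp
        apply not_isKoblitz
        have : p * p ≤ x * x := Nat.mul_le_mul hp.1.2 hp.1.2
        have : x ^ 2 = x * x := sq x
        omega
      have h9 : koblitz m t z x q a = 0 := by
        unfold koblitz
        rw [card_eq_zero, filter_eq_empty_iff]
        intro p hp
        exact hno p hp m
      have h10 : expected t z x q a = 0 := by
        unfold expected
        apply sum_eq_zero
        intro p hp
        have : (Fintype.piFinset (fun _ : Fin 2 => range p)).filter (fun n => IsKoblitz t p n) = ∅ := by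
          rw [filter_eq_empty_iff]
          intro n _
          exact hno p hp n
        rw [this, card_empty, Nat.cast_zero, zero_div]
      rw [h9, h10] at hlt
      simp at hlt
      have : 0 ≤ (x : ℝ) ^ δ := by positivity
      linarith
    refine ⟨x, hyx, fun l => (Real.log_le_iff_le_exp hx0).2 (hxr l), (t, z, q, a), ?_, ?_⟩
    · show (t, z, q, a) ∈ (if x < 2 then ∅ else range (x ^ 2 + 2) ×ˢ (range x ×ˢ (range (x + 1) ×ˢ range (x + 1))) :
        Finset (ℕ × ℕ × ℕ × ℕ))
      rw [if_neg (by omega)]
      simp only [mem_product, mem_range]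
      exact ⟨ht, hz, hq, ha⟩
    · rw [hcount, hexp, hm] at hlt
      exact hlt

end Pool.Agent.Results.MP_b89fd0_nt.FewDigitCurves
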