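import Mathlib
import Pool.Agent.R429.TL.Equiv

/-!
# Koblitz's conjecture in families of quadratic twists: the means for almost all twists, and a tiny proportion of the
twists decides

Nothing is used besides Mathlib in the statement.
-/

set_option autoImplicit false

namespace Pool.Agent.Results.MP_b89fd0_nt.TwistProportion

open Finset Filter Pool.Agent.R429.TL

noncomputable section

open Classical in
/-- The number of the points over `F_p`, with the point at infinity, of `Y ^ 2 = X ^ 3 + A X + B`. -/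
def points (A B : ℤ) (p : ℕ) : ℕ :=
  ((range p ×ˢ range p).filter (fun xy => (p : ℤ) ∣ (xy.2 : ℤ) ^ 2 - ((xy.1 : ℤ) ^ 3 + A * xy.1 + B))).card + 1

/-- `n` is `t` times a prime number. -/
def TimesPrime (t : ℕ) (n : ℤ) : Prop := ∃ ℓ : ℕ, ℓ.Prime ∧ n = t * ℓ

open Classical in
/-- The number of the primes `p ≤ x` not dividing `2 (4 A ^ 3 + 27 B ^ 2)` for which the number of the points over `F_p` is
`t` times a prime number. -/
def koblitz (A B : ℤ) (t x : ℕ) : ℕ :=
  ((range (x + 1)).filter (fun p : ℕ => p.Prime ∧ ¬ ((p : ℤ) ∣ 2 * (4 * A ^ 3 + 27 * B ^ 2)) ∧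
    TimesPrime t (points A B p))).card

open Classical in
/-- The number of the primes `p ≤ x` not dividing `2 (4 A ^ 3 + 27 B ^ 2)` for which `2 p + 2` minus the number of the points,
that is the number of the points over `F_p` of the nontrivial quadratic twist of the curve modulo `p`,
is `t` times a prime number. -/
def koblitz' (A B : ℤ) (t x : ℕ) : ℕ :=
  ((range (x + 1)).filter (fun p : ℕ => p.Prime ∧ ¬ ((p : ℤ) ∣ 2 * (4 * A ^ 3 + 27 * B ^ 2)) ∧
    TimesPrime t (2 * p + 2 - points A B p))).card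

/-- the means of both numbers, divided by `x / (log x) ^ 2`, are `K + o(1)` -/
def Mean (A B : ℤ) (t : ℕ) (K : ℝ) : Prop :=
  ∀ η : ℝ, 0 < η → ∀ᶠ x : ℕ in atTop, |((koblitz A B t x : ℝ) + koblitz' A B t x) / (2 * (x / (Real.log x) ^ 2)) - K| ≤ η

/-- For every `η > 0` there are `C` and `c > 0` such that for all large `N` the number for the twist
`Y ^ 2 = X ^ 3 + A D ^ 2 X + B D ^ 3` divided by `x / (log x) ^ 2` is in `[K - η, K + η]` for all `x` between `(log N) ^ C` and `N ^ c`
and all `D` with `0 < |D| ≤ N` up to `N ^ (1 - c)` exceptions. -/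
def Range (A B : ℤ) (t : ℕ) (K : ℝ) : Prop :=
  ∀ η : ℝ, 0 < η → ∃ C c : ℝ, 0 < c ∧ ∀ᶠ N : ℕ in atTop,
    (({D : ℤ | D ≠ 0 ∧ |D| ≤ N ∧ ∃ x : ℕ, (Real.log N) ^ C ≤ x ∧ (x : ℝ) ≤ (N : ℝ) ^ c ∧
      ¬ |(koblitz (A * D ^ 2) (B * D ^ 3) t x : ℝ) / (x / (Real.log x) ^ 2) - K| ≤ η}.ncard : ℕ) : ℝ) ≤ (N : ℝ) ^ (1 - c)

/-- For every `η > 0` and `a`, for all large `x` and then all large `N`, this holds at `x` for all but at most `x ^ (-a) N` of
the `D` with `0 < |D| ≤ N`. -/
def Most (A B : ℤ) (t : ℕ) (K : ℝ) : Prop :=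
  ∀ η : ℝ, 0 < η → ∀ a : ℝ, ∀ᶠ x : ℕ in atTop, ∀ᶠ N : ℕ in atTop,
    (({D : ℤ | D ≠ 0 ∧ |D| ≤ N ∧ ¬ |(koblitz (A * D ^ 2) (B * D ^ 3) t x : ℝ) / (x / (Real.log x) ^ 2) - K| ≤ η}.ncard : ℕ) : ℝ) ≤
      (x : ℝ) ^ (-a) * N

/-- For every `η > 0` there is an `a` such that for all large `x` there are arbitrarily large `N`, for which
this holds at `x` for at least `x ^ (-a) N` of the `D` with `0 < |D| ≤ N`. -/
def Some (A B : ℤ) (t : ℕ) (K : ℝ) : Prop :=
  ∀ η : ℝ, 0 < η → ∃ a : ℝ, ∀ᶠ x : ℕ in atTop, ∃ᶠ N : ℕ in atTop, (x : ℝ) ^ (-a) * N ≤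
    (({D : ℤ | D ≠ 0 ∧ |D| ≤ N ∧ |(koblitz (A * D ^ 2) (B * D ^ 3) t x : ℝ) / (x / (Real.log x) ^ 2) - K| ≤ η}.ncard : ℕ) : ℝ)

open Pool.Agent.W406.TW (ap jz jz_cast ap_eq ap_twist dvd_disc not_dvd_of_jac)

lemma points_eq (A B : ℤ) {p : ℕ} (hp : p.Prime) (hp2 : p ≠ 2) : (points A B p : ℤ) = p + 1 - ap A B p := by
  classical
  have hne : NeZero p := ⟨hp.ne_zero⟩
  have hF : Fact p.Prime := ⟨hp⟩
  have h1 : ((range p ×ˢ range p).filter (fun xy => (p : ℤ) ∣ (xy.2 : ℤ) ^ 2 - ((xy.1 : ℤ) ^ 3 + A * xy.1 + B))).card =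
      ∑ x ∈ range p, ((range p).filter (fun y => (p : ℤ) ∣ ((y : ℕ) : ℤ) ^ 2 - ((x : ℤ) ^ 3 + A * x + B))).card := by
    rw [card_filter, sum_product]
    apply sum_congr rfl
    intro x _
    rw [card_filter]
  have h2 : ∀ x ∈ range p, ((((range p).filter (fun y => (p : ℤ) ∣ ((y : ℕ) : ℤ) ^ 2 - ((x : ℤ) ^ 3 + A * x + B))).card : ℕ) : ℤ) =
      jacobiSym ((x : ℤ) ^ 3 + A * x + B) p + 1 := by
    intro x _
    obtain ⟨a, ha⟩ : ∃ a : ℤ, a = (x : ℤ) ^ 3 + A * x + B := ⟨_, rfl⟩
    rw [← ha]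
    have h3 := quadraticChar_card_sqrts (F := ZMod p) (by rwa [ZMod.ringChar_zmod_n]) ((a : ℤ) : ZMod p)
    have h4 : jacobiSym a p = quadraticChar (ZMod p) ((a : ℤ) : ZMod p) := by
      rw [← jacobiSym.legendreSym.to_jacobiSym]; rfl
    rw [h4, ← h3]
    refine congrArg (fun n : ℕ => (n : ℤ)) ?_
    apply card_bij (fun (y : ℕ) _ => (y : ZMod p))
    · intro y hy
      rw [mem_filter] at hy
      rw [Set.mem_toFinset, Set.mem_setOf_eq, ← sub_eq_zero]
      have := (ZMod.intCast_zmod_eq_zero_iff_dvd (((y : ℕ) : ℤ) ^ 2 - a) p).2 hy.2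
      push_cast at this
      exact this
    · intro y hy z hz h
      rw [mem_filter, mem_range] at hy hz
      have := congrArg ZMod.val h
      rwa [ZMod.val_natCast_of_lt hy.1, ZMod.val_natCast_of_lt hz.1] at this
    · intro z hz
      rw [Set.mem_toFinset, Set.mem_setOf_eq, ← sub_eq_zero] at hz
      refine ⟨z.val, ?_, ZMod.natCast_zmod_val z⟩
      rw [mem_filter, mem_range]
      refine ⟨ZMod.val_lt z, ?_⟩
      rw [← ZMod.intCast_zmod_eq_zero_iff_dvd]
      push_cast
      rw [ZMod.natCast_zmod_val]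
      exact hz
  unfold points ap
  rw [h1]
  push_cast
  rw [sum_congr rfl h2, sum_add_distrib, sum_const, card_range, nsmul_eq_mul]
  ring

/-- the good primes up to `x` -/
def PG (A B : ℤ) (x : ℕ) : Finset ℕ :=
  (range (x + 1)).filter (fun p : ℕ => p.Prime ∧ ¬ ((p : ℤ) ∣ 2 * (4 * A ^ 3 + 27 * B ^ 2)))

lemma PG_prop (A B : ℤ) (x : ℕ) : ∀ p ∈ PG A B x, p.Prime ∧ p ≠ 2 ∧ p ≤ x := by
  intro p hp
  unfold PG at hp
  rw [mem_filter, mem_range] at hp
  refine ⟨hp.2.1, ?_, by omega⟩
  rintro rfl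
  exact hp.2.2 (Dvd.intro _ rfl)

lemma twist_points (A B D : ℤ) {p : ℕ} (hp : p.Prime) (hp2 : p ≠ 2) :
    (jacobiSym D p = 1 → points (A * D ^ 2) (B * D ^ 3) p = points A B p) ∧
    (jacobiSym D p = -1 → (points (A * D ^ 2) (B * D ^ 3) p : ℤ) = 2 * p + 2 - points A B p) := by
  have h1 := points_eq (A * D ^ 2) (B * D ^ 3) hp hp2
  have h2 := points_eq A B hp hp2
  have h3 := ap_twist A B D hp hp2
  constructor
  · intro h
    rw [h3, h] at h1
    have : (points (A * D ^ 2) (B * D ^ 3) p : ℤ) = points A B p := by linarith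
    exact_mod_cast this
  · intro h
    rw [h3, h] at h1
    linarith

lemma koblitz_twist (A B D : ℤ) (t x : ℕ) :
    koblitz (A * D ^ 2) (B * D ^ 3) t x = cnt (PG A B x) (fun p => TimesPrime t (points A B p))
      (fun p => TimesPrime t (2 * p + 2 - points A B p)) D := by
  unfold koblitz cnt PG
  refine congrArg card (Finset.ext fun p => ?_)
  simp only [mem_filter, and_assoc]
  apply and_congr_right
  intro _
  constructor
  · rintro ⟨hp, hnd, h⟩
    have hdisc : 2 * (4 * (A * D ^ 2) ^ 3 + 27 * (B * D ^ 3) ^ 2) = 2 * (4 * A ^ 3 + 27 * B ^ 2) * D ^ 6 := by ring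
    have hpD : ¬ (p : ℤ) ∣ D := by
      intro h
      apply hnd
      rw [hdisc]
      exact Dvd.dvd.mul_left (dvd_pow h (by norm_num)) _
    have hpd : ¬ (p : ℤ) ∣ 2 * (4 * A ^ 3 + 27 * B ^ 2) := by
      intro h
      apply hnd
      rw [hdisc]
      exact Dvd.dvd.mul_right h _
    have hp2 : p ≠ 2 := by
      rintro rfl
      exact hpd (Dvd.intro _ rfl)
    obtain ⟨h1, h2⟩ := twist_points A B D hp hp2
    refine ⟨hp, hpd, ?_⟩
    rcases jac_of_not_dvd hp hpD with hj | hj
    · left; rw [h1 hj] at h; exact ⟨hj, h⟩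
    · right; rw [h2 hj] at h; exact ⟨hj, h⟩
  · rintro ⟨hp, hpd, h⟩
    have hp2 : p ≠ 2 := by
      rintro rfl
      exact hpd (Dvd.intro _ rfl)
    obtain ⟨h1, h2⟩ := twist_points A B D hp hp2
    rcases h with ⟨hj, h⟩ | ⟨hj, h⟩
    · have hpD := not_dvd_of_jac hp (by rw [hj]; decide : jacobiSym D p ≠ 0)
      exact ⟨hp, by rw [dvd_disc A B D hp hpD]; exact hpd, by rw [h1 hj]; exact h⟩
    · have hpD := not_dvd_of_jac hp (by rw [hj]; decide : jacobiSym D p ≠ 0)
      exact ⟨hp, by rw [dvd_disc A B D hp hpD]; exact hpd, by rw [h2 hj]; exact h⟩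

lemma tot_koblitz (A B : ℤ) (t x : ℕ) :
    tot (PG A B x) (fun p => TimesPrime t (points A B p)) (fun p => TimesPrime t (2 * p + 2 - points A B p)) =
      koblitz A B t x + koblitz' A B t x := by
  unfold tot koblitz koblitz' PG
  refine congrArg₂ (· + ·) (congrArg card (Finset.ext fun p => ?_)) (congrArg card (Finset.ext fun p => ?_)) <;>
    simp only [mem_filter, and_assoc]

lemma g_ge : ∀ᶠ x : ℕ in atTop, (x : ℝ) ^ (1 / 2 : ℝ) ≤ x / (Real.log x) ^ 2 := by
  have h := (isLittleO_log_rpow_atTop (by norm_num : (0 : ℝ) < 1 / 4)).comp_tendsto (tendsto_natCast_atTop_atTop (R := ℝ))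
  filter_upwards [h.bound (c := 1) one_pos, eventually_ge_atTop 3] with x hx hx3
  simp only [Function.comp_apply, one_mul] at hx
  have hx0 : (3 : ℝ) ≤ x := by exact_mod_cast hx3
  have hl : 0 < Real.log x := Real.log_pos (by linarith)
  rw [Real.norm_of_nonneg hl.le, Real.norm_of_nonneg (by positivity)] at hx
  rw [le_div_iff₀ (by positivity)]
  calc (x : ℝ) ^ (1 / 2 : ℝ) * (Real.log x) ^ 2 ≤ (x : ℝ) ^ (1 / 2 : ℝ) * ((x : ℝ) ^ (1 / 4 : ℝ)) ^ 2 := by gcongr
    _ = (x : ℝ) := by
        rw [← Real.rpow_natCast ((x : ℝ) ^ (1 / 4 : ℝ)), ← Real.rpow_mul (by linarith), ← Real.rpow_add (by linarith)]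
        norm_num

/-- Let `Y ^ 2 = X ^ 3 + A X + B` be any elliptic curve.

(1) For every `ε > 0` there are `C`, `c > 0` and `N₀`, which depend only on `ε`, such that for all `N ≥ N₀` and all but at most
`N ^ (1 - c)` of the twists `Y ^ 2 = X ^ 3 + A D ^ 2 X + B D ^ 3`, `0 < |D| ≤ N`, the following holds: for all `x` between
`(log N) ^ C` and `N ^ c` and all `t` the number of the primes `p ≤ x` for which the number of the points of the twist is `t` times
a prime number is the mean of the numbers for which the number of the points of the curve itself, respectively `2 p + 2` minus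
this number, is `t` times a prime number, with an error of at most `√S x ^ ε`, `S` the sum of both numbers.

(2) For every `t` and every `K ≥ 0` the following are equivalent: the asymptotic formula `S ~ 2 K x / (log x) ^ 2`;
the asymptotic formula `K x / (log x) ^ 2` for almost all twists in ranges of `x`; the same, for every large `x`, for all but a proportion
`x ^ (-a)` of the twists, every `a`; the same, for every large `x`, for at least a proportion `x ^ (-a)` of the twists, some `a`. -/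
theorem result :
    (∀ ε : ℝ, 0 < ε → ∃ C c : ℝ, 0 < C ∧ 0 < c ∧ ∃ N₀ : ℕ, ∀ N : ℕ, N₀ ≤ N → ∀ A B : ℤ,
      (({D : ℤ | D ≠ 0 ∧ |D| ≤ N ∧ ∃ x : ℕ, (Real.log N) ^ C ≤ x ∧ (x : ℝ) ≤ (N : ℝ) ^ c ∧
        ∃ t : ℕ, √((koblitz A B t x : ℝ) + koblitz' A B t x) * (x : ℝ) ^ ε <
          |(koblitz (A * D ^ 2) (B * D ^ 3) t x : ℝ) - ((koblitz A B t x : ℝ) + koblitz' A B t x) / 2|}.ncard : ℕ) : ℝ) ≤
        (N : ℝ) ^ (1 - c)) ∧
    (∀ (A B : ℤ) (t : ℕ) (K : ℝ), 0 ≤ K → [Mean A B t K, Range A B t K, Most A B t K, Some A B t K].TFAE) := by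
  classical
  constructor
  · intro ε hε
    obtain ⟨C, c, hC, hc, N₀, h⟩ := law 3 ε (by norm_num) hε
    -- `x ≥ 2` in the range
    have hlim : ∀ᶠ N : ℕ in atTop, (2 : ℝ) ≤ (Real.log N) ^ C :=
      ((tendsto_rpow_atTop hC).comp (Real.tendsto_log_atTop.comp tendsto_natCast_atTop_atTop)).eventually_ge_atTop _
    obtain ⟨N₂, hN₂⟩ := eventually_atTop.1 hlim
    refine ⟨C, c, hC, hc, max N₀ N₂, fun N hN A B => ?_⟩
    have hN2 := hN₂ N (le_trans (le_max_right _ _) hN)
    refine le_trans ?_ (h N (le_trans (le_max_left _ _) hN) ℕ (fun x => if x < 2 then ∅ else range (2 * x + 3)) (fun x _ => PG A B x)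
      (fun t p => TimesPrime t (points A B p)) (fun t p => TimesPrime t (2 * p + 2 - points A B p)) ?_
      (fun x _ _ => PG_prop A B x))
    · have hsub : ({D : ℤ | D ≠ 0 ∧ |D| ≤ N ∧ ∃ x : ℕ, (Real.log N) ^ C ≤ x ∧ (x : ℝ) ≤ (N : ℝ) ^ c ∧
        ∃ t : ℕ, √((koblitz A B t x : ℝ) + koblitz' A B t x) * (x : ℝ) ^ ε <
          |(koblitz (A * D ^ 2) (B * D ^ 3) t x : ℝ) - ((koblitz A B t x : ℝ) + koblitz' A B t x) / 2|}).ncard ≤ _ :=
        Set.ncard_le_ncard (t := {D : ℤ | D ≠ 0 ∧ |D| ≤ N ∧ ∃ x : ℕ, (Real.log N) ^ C ≤ x ∧ (x : ℝ) ≤ (N : ℝ) ^ c ∧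
          ∃ t ∈ (if x < 2 then ∅ else range (2 * x + 3)), √(tot (PG A B x) (fun p => TimesPrime t (points A B p))
            (fun p => TimesPrime t (2 * p + 2 - points A B p)) : ℝ) * (x : ℝ) ^ ε <
            |(cnt (PG A B x) (fun p => TimesPrime t (points A B p))
            (fun p => TimesPrime t (2 * p + 2 - points A B p)) D : ℝ) - (tot (PG A B x) (fun p => TimesPrime t (points A B p))
            (fun p => TimesPrime t (2 * p + 2 - points A B p)) : ℝ) / 2|}) ?_ (fin_set N _)
      · exact_mod_cast hsub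
      rintro D ⟨hD0, hDN, x, hx1, hx2, t, hlt⟩
      have hx : 2 ≤ x := by exact_mod_cast hN2.trans hx1
      refine ⟨hD0, hDN, x, hx1, hx2, t, ?_, ?_⟩
      · rw [if_neg (by omega), mem_range]
        by_contra hcon
        -- `t` is too large
        have hz : tot (PG A B x) (fun p => TimesPrime t (points A B p))
            (fun p => TimesPrime t (2 * p + 2 - points A B p)) = 0 := by
          unfold tot
          rw [Nat.add_eq_zero_iff]
          have hbd : ∀ p ∈ PG A B x, ∀ n : ℤ, 0 ≤ n → n ≤ 2 * p + 2 → ¬ TimesPrime t n := by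
            rintro p hp n hn0 hn ⟨ℓ, hℓ, he⟩
            have hpx := (PG_prop A B x p hp).2.2
            have h1 : (t : ℤ) * 2 ≤ t * ℓ := by
              have : (2 : ℤ) ≤ ℓ := by exact_mod_cast hℓ.two_le
              nlinarith [(Nat.cast_nonneg t : (0 : ℤ) ≤ t)]
            have h2 : (t : ℤ) ≥ 2 * x + 3 := by push Not at hcon; exact_mod_cast hcon
            have h3 : (p : ℤ) ≤ x := by exact_mod_cast hpx
            have h4 : (0 : ℤ) ≤ x := Nat.cast_nonneg _
            linarith
          have hap : ∀ p ∈ PG A B x, (points A B p : ℤ) ≤ 2 * p + 2 := by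
            intro p hp
            obtain ⟨hpp, hp2, _⟩ := PG_prop A B x p hp
            have h1 := points_eq A B hpp hp2
            have h2 := Pool.Agent.W406.TW.ap_abs A B p
            have h3 := (abs_le.1 h2).1
            linarith
          constructor
          · rw [card_eq_zero, filter_eq_empty_iff]
            intro p hp
            exact hbd p hp _ (Nat.cast_nonneg _) (hap p hp)
          · rw [card_eq_zero, filter_eq_empty_iff]
            intro p hp
            refine hbd p hp _ ?_ ?_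
            · have := hap p hp; linarith
            · have : (0 : ℤ) ≤ points A B p := Nat.cast_nonneg _
              linarith
        have hz2 : cnt (PG A B x) (fun p => TimesPrime t (points A B p))
            (fun p => TimesPrime t (2 * p + 2 - points A B p)) D = 0 := by
          have h1 : cnt (PG A B x) (fun p => TimesPrime t (points A B p))
            (fun p => TimesPrime t (2 * p + 2 - points A B p)) D ≤ tot (PG A B x) (fun p => TimesPrime t (points A B p))
            (fun p => TimesPrime t (2 * p + 2 - points A B p)) := by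
            unfold cnt tot
            refine le_trans ?_ (card_union_le _ _)
            apply card_le_card
            intro p hp
            simp only [mem_filter, mem_union] at hp ⊢
            tauto
          omega
        rw [koblitz_twist] at hlt
        have hlt' := hlt
        rw [hz2] at hlt'
        have h5 : (koblitz A B t x : ℝ) + koblitz' A B t x = 0 := by
          rw [← Nat.cast_add, ← tot_koblitz, hz]; simp
        rw [h5] at hlt'
        simp at hlt'
      · rw [tot_koblitz, ← koblitz_twist]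
        push_cast
        exact hlt
    · intro x hx
      show (((if x < 2 then ∅ else range (2 * x + 3) : Finset ℕ).card : ℕ) : ℝ) ≤ _
      split_ifs with h2
      · rw [card_empty, Nat.cast_zero]; positivity
      · rw [card_range, show (3 : ℝ) = ((3 : ℕ) : ℝ) by norm_num, Real.rpow_natCast]
        have : 2 * x + 3 ≤ x ^ 3 := by
          have h3 : 2 ≤ x := by omega
          have h4 : 4 ≤ x ^ 2 := by nlinarith
          have h5 : x ^ 3 = x ^ 2 * x := by ring
          nlinarith
        exact_mod_cast this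
  · intro A B t K hK
    have h := tfae (PG A B) (fun p => TimesPrime t (points A B p)) (fun p => TimesPrime t (2 * p + 2 - points A B p))
      (fun x => x / (Real.log x) ^ 2) (fun η s => |s - K| ≤ η) (PG_prop A B) (1 / 2) (by norm_num)
      g_ge (asy_H1 K hK) (asy_H2 K hK)
    unfold StA StB StC StD at h
    simp only [tot_koblitz, ← koblitz_twist] at h
    push_cast at h
    exact h

end

end Pool.Agent.Results.MP_b89fd0_nt.TwistProportion
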